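import Pool.Agent.Helpers.OligC

set_option autoImplicit false

open Pool.Agent.OligDefs

namespace Pool.Agent.Results.MP_94c136_al.NotProfinite

/-- A topological space is profinite if it is compact, Hausdorff and totally disconnected. -/
def IsProfinite (X : Type) (t : TopologicalSpace X) : Prop :=
  @CompactSpace X t ∧ @T2Space X t ∧ @TotallyDisconnectedSpace X t

/-- There is an oligomorphic group `G ≤ S_∞` whose outer automorphism group `Out(G)`, with the
quotient topology, is not compact, hence not profinite. -/
theorem result : ∃ G : Subgroup (Equiv.Perm ℕ), IsOligomorphic G ∧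
    ¬ @CompactSpace (TopAut G ⧸ Inn G) (outTop G) ∧
    ¬ IsProfinite (TopAut G ⧸ Inn G) (outTop G) :=
  ⟨Olig.GG, ⟨Olig.closed_GG, Olig.oligo⟩, Olig.not_compact, fun h => Olig.not_compact h.1⟩

end Pool.Agent.Results.MP_94c136_al.NotProfinite
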